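import Mathlib
import Pool.Agent.Helper40.DZ.Pub

/-!
Definitions used in the statement on strictly ergodic models of towers of torus extensions.
-/

open MeasureTheory Filter Topology
open scoped ArithmeticFunction.Moebius

namespace Pool.Agent.Helper40.GZP

universe u

/-! ### towers -/

section

variable {N : ℕ}

/-- the Haar measure of the torus `T^N` -/
noncomputable def haar (N : ℕ) : Measure (UnitAddTorus (Fin N)) :=
  Measure.pi fun _ : Fin N => (AddCircle.haarAddCircle : Measure UnitAddCircle)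

/-- the map `x ↦ x + f x` of the torus -/
def shift (f : Fin N → UnitAddTorus (Fin N) → UnitAddCircle) (x : UnitAddTorus (Fin N)) :
    UnitAddTorus (Fin N) := fun i => x i + f i x

/-- `g` depends only on the coordinates of the levels `< l` -/
def Below (lev : Fin N → ℕ) (l : ℕ) (g : UnitAddTorus (Fin N) → UnitAddCircle) : Prop :=
  ∀ x y, (∀ j, lev j < l → x j = y j) → g x = g y

/-- The map `x ↦ x + f x` is a tower of torus extensions: each coordinate `i` has a level `lev i`,
and the function `f i` is measurable and depends only on the coordinates of lower levels; the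
rotation on the coordinates of level `0` is minimal; and no nontrivial integer combination of the
functions `f i` with `lev i = l + 1` is cohomologous (with a measurable transfer function `D` of the
levels `≤ l`) to a function `β` of the levels `< l` (a constant for `l = 0`). -/
structure Tower (lev : Fin N → ℕ) (f : Fin N → UnitAddTorus (Fin N) → UnitAddCircle) : Prop where
  meas : ∀ i, Measurable (f i)
  dep : ∀ i, Below lev (lev i) (f i)
  rot : ∀ a : Fin N → ℤ, a ≠ 0 → (∀ i, a i ≠ 0 → lev i = 0) → ∑ i, a i • f i 0 ≠ 0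
  ext : ∀ (l : ℕ) (a : Fin N → ℤ), a ≠ 0 → (∀ i, a i ≠ 0 → lev i = l + 1) →
    ∀ D β : UnitAddTorus (Fin N) → UnitAddCircle, Measurable D → Measurable β →
    Below lev (l + 1) D → Below lev l β →
    ¬ ∀ᵐ x ∂(haar N), ∑ i, a i • f i x = β x + D (shift f x) - D x

end

/-! ### uniquely ergodic models -/

section

variable {Y : Type} [MeasurableSpace Y]

/-- the system `(Y, ν, S)` is isomorphic to a tower -/
def IsoTower (S : Y → Y) (ν : Measure Y) : Prop :=
  ∃ (N : ℕ) (lev : Fin N → ℕ) (f : Fin N → UnitAddTorus (Fin N) → UnitAddCircle)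
    (ψ : Y → UnitAddTorus (Fin N)), Tower lev f ∧ MeasurePreserving ψ ν (haar N) ∧
    (∀ᵐ y ∂ν, ψ (S y) = shift f (ψ y)) ∧
    ∃ A : Set Y, MeasurableSet A ∧ ν Aᶜ = 0 ∧ Set.InjOn ψ A

/-- `ν` is the only invariant probability measure of `S`, and the system `(Y, ν, S)` is isomorphic
to a tower -/
def Model (S : Y → Y) (ν : Measure Y) : Prop :=
  IsProbabilityMeasure ν ∧ MeasurePreserving S ν ν ∧
  (∀ ν' : Measure Y, IsProbabilityMeasure ν' → MeasurePreserving S ν' ν' → ν' = ν) ∧
  IsoTower S ν

/-- all nonempty open sets have positive measure -/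
def Full [TopologicalSpace Y] (ν : Measure Y) : Prop :=
  ∀ O : Set Y, IsOpen O → O.Nonempty → 0 < ν O

end

/-! ### isometric extensions -/

/-- The map `T` of the space `X` is an isometric extension of the map `S` of the space `Y`: the map
`π` from `X` to `Y` is continuous with `π T = S π`, and `ρ` is a continuous function on the pairs
of points with the same image under `π` which is a metric on every fibre of `π` and is preserved
by `T`. (`T` need not be continuous.) -/
def IsoExt {X Y : Type} [TopologicalSpace X] [TopologicalSpace Y] (π : X → Y) (S : Y → Y)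
    (T : X → X) (ρ : X → X → ℝ) : Prop :=
  Continuous π ∧ (∀ x, π (T x) = S (π x)) ∧
  ContinuousOn (fun z : X × X => ρ z.1 z.2) {z | π z.1 = π z.2} ∧
  (∀ x x', π x = π x' → (ρ x x' = 0 ↔ x = x')) ∧
  (∀ x x', π x = π x' → ρ x x' = ρ x' x) ∧
  (∀ x x' x'', π x = π x' → π x' = π x'' → ρ x x'' ≤ ρ x x' + ρ x' x'') ∧
  ∀ x x', π x = π x' → ρ (T x) (T x') = ρ x x'

/-- for almost all points `y` of `Y` the function `f` is continuous at all points of the fibre of
`π` over `y` -/
def FibreCts {X Y Z : Type} [TopologicalSpace X] [TopologicalSpace Z] [MeasurableSpace Y]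
    (ν : Measure Y) (π : X → Y) (f : X → Z) : Prop :=
  ∀ᵐ y ∂ν, ∀ x, π x = y → ContinuousAt f x

/-! ### C*-algebras -/

section

variable {B : Type u} [CStarAlgebra B] {Y : Type} [TopologicalSpace Y] [CompactSpace Y]

/-- `α` is given by `S` on the functions on `Y` -/
def Rot (S : C(Y, Y)) (α : B →⋆ₐ[ℂ] B) (π : C(Y, ℂ) →⋆ₐ[ℂ] B) : Prop :=
  ∀ f : C(Y, ℂ), α (π f) = π (f.comp S)

/-- `P` is a continuous function from `Y` to the unitary group `U(d)` and
`α (v i) = ∑ j, π (P i j) * v j` -/
def Fam (α : B →⋆ₐ[ℂ] B) (π : C(Y, ℂ) →⋆ₐ[ℂ] B) {d : ℕ} (P : C(Y, Matrix (Fin d) (Fin d) ℂ))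
    (v : Fin d → B) : Prop :=
  (∀ x, P x ∈ Matrix.unitaryGroup (Fin d) ℂ) ∧
  ∀ i, α (v i) = ∑ j, π ⟨fun x => P x i j, by fun_prop⟩ * v j

/-- the products `π f * v i` for all families `v` as in `Fam` -/
def FamSet (α : B →⋆ₐ[ℂ] B) (π : C(Y, ℂ) →⋆ₐ[ℂ] B) : Set B :=
  {x : B | ∃ (d : ℕ) (P : C(Y, Matrix (Fin d) (Fin d) ℂ)) (v : Fin d → B), Fam α π P v ∧
    ∃ (f : C(Y, ℂ)) (i : Fin d), π f * v i = x}

end

end Pool.Agent.Helper40.GZP
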