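import Pool.Agent.Helper40.GZ.Fin
import Pool.Agent.Helper40.TWM.All
import Pool.Agent.Helper40.GY.EMB
import Pool.Agent.Helper13.GY.GDY
import Pool.Agent.Helper19.GY.FXC
import Pool.Agent.Helper19.GY.FXR
import Pool.Agent.Helper19.GY.RXS
import Pool.Agent.Helper29.GY.GRI
import Pool.Agent.Helper34.GY.CVR
import Pool.Agent.Helper34.GY.CYC
import Pool.Agent.Helper41.GY.CTH
import Pool.Agent.Helper41.GY.MLA
import Pool.Agent.Helper46.GY.MST
import Pool.Agent.Helper47.GY.MSP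
import Pool.Agent.Helper49.GY.FRM
import Pool.Agent.Helper53.GY.MHQ
import Pool.Agent.Helper59.GY.UEQ
import Pool.Agent.Helper72.GY.EQC
import Pool.Agent.Helper72.GY.PTC
import Pool.Agent.Helper73.GY.THB
import Pool.Agent.Helper89.GY.CMP
import Pool.Agent.Helper89.GY.MOD
import Pool.Agent.Helper92.GY.CIT
import Pool.Agent.Helper94.GY.PTB
import Pool.Agent.Helper95.GY.RIS
import Pool.Agent.Helper96.GY.CSP
import Pool.Agent.Helper99.GY.EQR

/-!
All the modules of the theorem on strictly ergodic models of towers put together.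
-/

open MeasureTheory

namespace Pool.Agent.Helper40.GZ

open Pool.Agent.Helper98.GY (ST_RIS ST_EQR ST_GRI ST_PTB ST_PTC ST_THB ST_MSP ST_MST ST_MHQ ST_MLA
  ST_UEQ ST_GDY ST_CMP ST_EQC ST_EMB ST_MOD ST_FRM ST_CVR ST_CYC ST_FXC ST_RXS ST_FXR ST_CIT ST_CTH
  ST_CSP)
open Pool.Agent.Helper40.TWM (tw_INV tm_MST tm_MHQ tm_MTV tm_MSK tm_MNK)

universe u

theorem all_RIS : ST_RIS := Pool.Agent.Helper98.GY.st_RIS

theorem all_EQR : ST_EQR := Pool.Agent.Helper99.GY.st_EQR all_RIS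

theorem all_GRI : ST_GRI := Pool.Agent.Helper29.GY.st_GRI all_RIS

theorem all_PTB : ST_PTB := Pool.Agent.Helper94.GY.st_PTB all_EQR Pool.Agent.Helper16.AZ.all_MRF

theorem all_PTC : ST_PTC := Pool.Agent.Helper72.GY.st_PTC Pool.Agent.Helper16.BZ.all_KT2
  Pool.Agent.Helper16.BZ.all_GAM2 Pool.Agent.Helper16.MD.all_WND

theorem all_THB : ST_THB := Pool.Agent.Helper73.GY.st_THB all_PTC Pool.Agent.Helper40.DZ.all_DEC3
  all_PTB

theorem all_MSP : ST_MSP := Pool.Agent.Helper47.GY.st_MSP Pool.Agent.Helper40.DZ.all_KER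
  Pool.Agent.Helper40.JZ.all_LMF all_RIS all_EQR

theorem all_MST : ST_MST := Pool.Agent.Helper46.GY.st_MST tw_INV tm_MST

theorem all_MHQ : ST_MHQ := Pool.Agent.Helper53.GY.st_MHQ tw_INV tm_MHQ

theorem all_MLA : ST_MLA := Pool.Agent.Helper41.GY.st_MLA all_MST all_MHQ tm_MTV tm_MSK tm_MNK
  Pool.Agent.Helper40.JZ.all_LMF

theorem all_UEQ : ST_UEQ := Pool.Agent.Helper59.GY.st_UEQ

theorem all_GDY : ST_GDY := Pool.Agent.Helper13.GY.st_GDY all_MLA all_MSP all_THB all_UEQ all_MST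

theorem all_CMP : ST_CMP := Pool.Agent.Helper89.GY.st_CMP

theorem all_EQC : ST_EQC := Pool.Agent.Helper72.GY.st_EQC all_CMP

theorem all_EMB : ST_EMB := Pool.Agent.Helper40.GY.st_EMB

theorem all_MOD : ST_MOD := Pool.Agent.Helper89.GY.st_MOD all_CMP all_EQC all_EMB

theorem all_FRM : ST_FRM := Pool.Agent.Helper49.GY.st_FRM

theorem all_CVR : ST_CVR := Pool.Agent.Helper34.GY.st_CVR

theorem all_CYC : ST_CYC := Pool.Agent.Helper34.GY.st_CYC all_FRM Pool.Agent.Helper40.IZ.st_POL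
  all_CVR

theorem all_FXC : ST_FXC := Pool.Agent.Helper19.GY.st_FXC all_MOD Pool.Agent.Helper40.IZ.all_HMS
  Pool.Agent.Helper40.IZ.all_FDE all_CYC all_GRI

theorem all_RXS : ST_RXS := Pool.Agent.Helper19.GY.st_RXS

theorem all_FXR : ST_FXR := Pool.Agent.Helper19.GY.st_FXR all_FXC all_RXS

theorem all_CIT : ST_CIT.{u} := Pool.Agent.Helper92.GY.st_CIT

theorem all_CTH : ST_CTH.{u} := Pool.Agent.Helper41.GY.st_CTH Pool.Agent.Helper16.BZ.all_RMF2
  all_CIT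

theorem all_CSP : ST_CSP.{u} := Pool.Agent.Helper96.GY.st_CSP all_CTH

open Pool.Agent.Helper40.GZP
open Pool.Agent.Helper40.Mob (TwistedDisjoint)

/-- part 1 -/
theorem all_one (X Y : Type) [MetricSpace X] [CompactSpace X]
    [MetricSpace Y] [CompactSpace Y] [MeasurableSpace Y] [BorelSpace Y] (ν : Measure Y)
    (S : Y ≃ₜ Y) (π : X → Y) (τ : X → X) (ρ : X → X → ℝ) (F : X → ℂ) (hM : Model S ν)
    (hF : Full ν) (hI : IsoExt π S τ ρ) (hτ : FibreCts ν π τ) (hFc : FibreCts ν π F)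
    (hB : ∃ C : ℝ, ∀ x, ‖F x‖ ≤ C) (x : X) : Pool.Agent.Helper40.DZP.Vanish τ F x :=
  fin_one all_GDY all_FXR X Y ν S π τ ρ F hM hF hI hτ hFc hB x

/-- part 2 -/
theorem all_two (B : Type u) [CStarAlgebra B] (Y : Type)
    [MetricSpace Y] [CompactSpace Y] [MeasurableSpace Y] [BorelSpace Y] (ν : Measure Y)
    (S : Y ≃ₜ Y) (α : B →⋆ₐ[ℂ] B) (π : C(Y, ℂ) →⋆ₐ[ℂ] B) (hM : Model S ν)
    (hr : Rot ⟨S, S.continuous⟩ α π) (a : B)
    (ha : a ∈ closure (Submodule.span ℂ (FamSet α π) : Set B)) : TwistedDisjoint α a :=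
  fin_two all_GDY all_CSP B Y ν S α π hM hr a ha

end Pool.Agent.Helper40.GZ
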