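import Pool.Agent.Helper40.GZ.Pub
import Pool.Agent.Helper98.GY.Stmts2

/-!
The last step: from the statements of the modules to the hand-in on strictly ergodic models of
towers.
-/

open Finset Filter MeasureTheory Topology
open scoped ArithmeticFunction.Moebius

namespace Pool.Agent.Helper40.GZ

open Pool.Agent.Helper98.TW (Tow MR NE SS la tr)
open Pool.Agent.Helper98.GY (Mdl Ism Good GoodC ST_GDY ST_FXR ST_CSP)
open Pool.Agent.Helper16.AZ (T E Op mm)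
open Pool.Agent.Helper40.Mob (TwistedDisjoint)
open Pool.Agent.Helper40.GZP

universe u

theorem below_tr {N : ℕ} {lev : Fin N → ℕ} {l : ℕ} {g : T N → UnitAddCircle}
    (h : Below lev l g) (x : T N) : g (tr lev l x) = g x := by
  refine h _ _ fun j hj => ?_
  simp [tr, hj]

theorem tr_below {N : ℕ} {lev : Fin N → ℕ} {l : ℕ} {g : T N → UnitAddCircle}
    (h : ∀ x, g (tr lev l x) = g x) : Below lev l g := by
  intro x y hxy
  rw [← h x, ← h y]
  congr 1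
  funext j
  by_cases hj : lev j < l
  · simp [tr, hj, hxy j hj]
  · simp [tr, hj]

theorem tower_tow {N : ℕ} {lev : Fin N → ℕ} {f : Fin N → T N → UnitAddCircle}
    (h : Tower lev f) : Tow lev f ∧ MR lev f ∧ NE lev f := by
  refine ⟨⟨h.meas, fun i x => below_tr (h.dep i) x⟩, fun a ha hl => h.rot a ha hl, ?_⟩
  intro l a ha hl D β hD hβ hDt hβt hc
  refine h.ext l a ha hl D β hD hβ (tr_below hDt) (tr_below hβt) ?_
  filter_upwards [hc] with x hx
  exact eq_sub_of_add_eq hx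

theorem mdl_of {Y : Type} [MeasurableSpace Y] {S : Y → Y} {ν : Measure Y}
    (h : IsoTower S ν) : Mdl S ν := by
  obtain ⟨N, lev, f, ψ, h1, h2, h3, h4⟩ := h
  obtain ⟨a, b, c⟩ := tower_tow h1
  exact ⟨N, lev, f, ψ, a, b, c, h2, h3, h4⟩

/-- part 1 -/
theorem fin_one (hG : ST_GDY) (hX : ST_FXR) (X Y : Type) [MetricSpace X] [CompactSpace X]
    [MetricSpace Y] [CompactSpace Y] [MeasurableSpace Y] [BorelSpace Y] (ν : Measure Y)
    (S : Y ≃ₜ Y) (π : X → Y) (τ : X → X) (ρ : X → X → ℝ) (F : X → ℂ) (hM : Model S ν)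
    (hF : Full ν) (hI : IsoExt π S τ ρ) (hτ : FibreCts ν π τ) (hFc : FibreCts ν π F)
    (hB : ∃ C : ℝ, ∀ x, ‖F x‖ ≤ C) (x : X) : Pool.Agent.Helper40.DZP.Vanish τ F x := by
  obtain ⟨hp, hmp, hu, hT⟩ := hM
  obtain ⟨C, hC⟩ := hB
  obtain ⟨h1, h2⟩ := hG Y ν S hmp (mdl_of hT) hu
  exact hX X Y ν π S τ ρ hI h1 h2 hF S.continuous hmp hτ F C hC hFc x

/-- part 2 -/
theorem fin_two (hG : ST_GDY) (hC : ST_CSP.{u}) (B : Type u) [CStarAlgebra B] (Y : Type)
    [MetricSpace Y] [CompactSpace Y] [MeasurableSpace Y] [BorelSpace Y] (ν : Measure Y)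
    (S : Y ≃ₜ Y) (α : B →⋆ₐ[ℂ] B) (π : C(Y, ℂ) →⋆ₐ[ℂ] B) (hM : Model S ν)
    (hr : Rot ⟨S, S.continuous⟩ α π) (a : B)
    (ha : a ∈ closure (Submodule.span ℂ (FamSet α π) : Set B)) : TwistedDisjoint α a := by
  obtain ⟨hp, hmp, hu, hT⟩ := hM
  obtain ⟨h1, h2⟩ := hG Y ν S hmp (mdl_of hT) hu
  refine hC B Y ⟨S, S.continuous⟩ α π ?_ hr a ha
  intro d φ v u x hφ hφu hv
  exact h1 d φ v u x ⟨Eventually.of_forall fun y => hφ.continuousAt, hφu⟩ hv

end Pool.Agent.Helper40.GZ
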